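import Pool.Agent.Helper44.TOT.Defs

/-!
# TOT-A1: AdmZero from BT, CL0, CLC
-/

set_option autoImplicit false

namespace Pool.Agent.Helper51.TOT

open Pool.Agent.Helper44.TOT

/-- facts for large `x` -/
theorem large {x : ℕ} (hx : 2 ^ 110 ≤ x) :
    (1 : ℝ) < Real.log x ∧ 0 ≤ ll x ∧ (x : ℝ) ^ ((1 : ℝ) / 5) * 4 ≤ (x : ℝ) ^ ((7 : ℝ) / 20) ∧
      (x : ℝ) ^ ((1 : ℝ) / 5) * 4 ≤ (x : ℝ) ^ ((2 : ℝ) / 5) ∧
      (x : ℝ) ^ ((1 : ℝ) / 11) + 1 ≤ (x : ℝ) ^ ((1 : ℝ) / 10) ∧ 2 ≤ (x : ℝ) ^ ((1 : ℝ) / 11) := by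
  have hxR : (2 : ℝ) ^ 110 ≤ x := by exact_mod_cast hx
  have hx0 : (0 : ℝ) < x := lt_of_lt_of_le (by positivity) hxR
  have hx1 : (1 : ℝ) ≤ x := le_trans (one_le_pow₀ (by norm_num)) hxR
  have hlog : (1 : ℝ) < Real.log x := by
    rw [Real.lt_log_iff_exp_lt hx0]
    have := Real.exp_one_lt_d9
    refine lt_of_lt_of_le (lt_trans this ?_) hxR
    norm_num
  have hll : 0 ≤ ll x := Real.log_nonneg hlog.le
  set y : ℝ := (x : ℝ) ^ ((1 : ℝ) / 110) with hy
  have hy2 : 2 ≤ y := by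
    have h1 : ((2 : ℝ) ^ 110) ^ ((1 : ℝ) / 110) ≤ y := Real.rpow_le_rpow (by positivity) hxR (by norm_num)
    have h2 : ((2 : ℝ) ^ 110) ^ ((1 : ℝ) / 110) = 2 := by
      rw [← Real.rpow_natCast, ← Real.rpow_mul (by norm_num)]
      norm_num
    linarith
  have hpow : ∀ (n : ℕ), y ^ n = (x : ℝ) ^ ((n : ℝ) / 110) := by
    intro n
    rw [hy, ← Real.rpow_natCast, ← Real.rpow_mul hx0.le]
    ring_nf
  have e10 : (x : ℝ) ^ ((1 : ℝ) / 10) = y ^ 11 := by rw [hpow]; norm_num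
  have e11 : (x : ℝ) ^ ((1 : ℝ) / 11) = y ^ 10 := by rw [hpow]; norm_num
  have e5 : (x : ℝ) ^ ((1 : ℝ) / 5) = y ^ 22 := by rw [hpow]; norm_num
  have e25 : (x : ℝ) ^ ((2 : ℝ) / 5) = y ^ 44 := by rw [hpow]; norm_num
  have e720 : y ^ 38 ≤ (x : ℝ) ^ ((7 : ℝ) / 20) := by
    rw [hpow]
    exact Real.rpow_le_rpow_of_exponent_le hx1 (by norm_num)
  have hy10 : (2 : ℝ) ^ 10 ≤ y ^ 10 := pow_le_pow_left₀ (by norm_num) hy2 10
  refine ⟨hlog, hll, ?_, ?_, ?_, ?_⟩
  · refine le_trans ?_ e720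
    rw [e5, show (38 : ℕ) = 22 + 16 from rfl, pow_add]
    have h1 : (2 : ℝ) ^ 16 ≤ y ^ 16 := pow_le_pow_left₀ (by norm_num) hy2 16
    exact mul_le_mul_of_nonneg_left (by linarith) (by positivity)
  · rw [e5, e25, show (44 : ℕ) = 22 + 22 from rfl, pow_add]
    have h1 : (2 : ℝ) ^ 22 ≤ y ^ 22 := pow_le_pow_left₀ (by norm_num) hy2 22
    exact mul_le_mul_of_nonneg_left (by linarith) (by positivity)
  · rw [e10, e11, pow_succ y 10]
    nlinarith
  · rw [e11]; linarith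

theorem mem_NS {x n : ℕ} (h : n ∈ NS x []) : 1 ≤ n ∧ (n + 1).Prime ∧ x / 2 < n + 1 ∧ n + 1 ≤ x := by
  classical
  unfold NS at h
  rw [Finset.mem_filter, Finset.mem_Icc] at h
  exact ⟨h.1.1, h.2.1, h.2.2.1, h.2.2.2⟩

/-- from `n = f m q` in a set `S` to a set of pairs -/
theorem exists_pairs (S : Finset ℕ) (f : ℕ → ℕ → ℕ) (R : ℕ → ℕ → Prop)
    (h : ∀ n ∈ S, ∃ m q : ℕ, R m q ∧ n = f m q) :
    ∃ T : Finset (ℕ × ℕ), T.card = S.card ∧ ∀ t ∈ T, R t.2 t.1 ∧ f t.2 t.1 ∈ S := by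
  classical
  choose! m q hR hn using h
  refine ⟨S.image (fun n => (q n, m n)), ?_, ?_⟩
  · refine Finset.card_image_of_injOn ?_
    intro n hn1 n' hn2 he
    simp only [Prod.mk.injEq] at he
    rw [hn n hn1, hn n' hn2, he.1, he.2]
  · intro t ht
    obtain ⟨n, hnS, rfl⟩ := Finset.mem_image.1 ht
    exact ⟨hR n hnS, by rw [← hn n hnS]; exact hnS⟩

theorem admZero (hBT : BT) (hCL0 : CL0) (hCLC : CLC) : AdmZero := by
  obtain ⟨CB, hCB, hB⟩ := hBT
  obtain ⟨C2, hC2, hL⟩ := hCL0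
  refine ⟨max C2 (11 * CB), le_trans hC2 (le_max_left _ _), ?_⟩
  intro A
  obtain ⟨A1, X1, hL⟩ := hL A
  obtain ⟨C, X2, hCL⟩ := hCLC A
  refine ⟨C, A1, max (2 ^ 110) (max X1 X2), ?_⟩
  intro x M1 hx hM1
  have hx110 : 2 ^ 110 ≤ x := le_trans (le_max_left _ _) hx
  have hxX1 : X1 ≤ x := le_trans (le_trans (le_max_left _ _) (le_max_right _ _)) hx
  have hxX2 : X2 ≤ x := le_trans (le_trans (le_max_right _ _) (le_max_right _ _)) hx
  obtain ⟨hlog, hll, f1, f2, f3, f4⟩ := large hx110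
  have hxR : (2 : ℝ) ^ 110 ≤ x := by exact_mod_cast hx110
  have hx0 : (0 : ℝ) < x := lt_of_lt_of_le (by positivity) hxR
  have hx1 : (1 : ℝ) ≤ x := le_trans (one_le_pow₀ (by norm_num)) hxR
  have hlog0 : 0 < Real.log x := by linarith
  have hx4 : 4 ≤ x := le_trans (by norm_num) hx110
  have hM1pos : (0 : ℝ) < M1 := lt_of_lt_of_le (Real.exp_pos _) hM1
  have hp : ∀ u v : ℝ, (x : ℝ) ^ u * (x : ℝ) ^ v = (x : ℝ) ^ (u + v) := fun u v => (Real.rpow_add hx0 u v).symm
  refine ⟨?_, ?_, ?_, ?_⟩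
  · -- rng
    intro n hn
    obtain ⟨h1, -, h2, h3⟩ := mem_NS hn
    constructor
    · have h4 : x < 4 * n := by omega
      have h5 : (x : ℝ) < 4 * n := by exact_mod_cast h4
      linarith
    · have : n ≤ x := by omega
      exact_mod_cast this
  · -- divs
    intro d S hd hdx hSN hdS
    have hdR : (0 : ℝ) < d := by exact_mod_cast hd
    set X' := x / d with hX'
    have hdX : (x : ℝ) ^ ((1 : ℝ) / 10) ≤ (x : ℝ) / d := by
      rw [le_div_iff₀ hdR]
      calc (x : ℝ) ^ ((1 : ℝ) / 10) * d ≤ (x : ℝ) ^ ((1 : ℝ) / 10) * (x : ℝ) ^ ((9 : ℝ) / 10) :=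
            mul_le_mul_of_nonneg_left hdx (by positivity)
        _ = x := by rw [hp]; norm_num
    have hfl : (x : ℝ) / d < X' + 1 := by
      rw [div_lt_iff₀ hdR]
      have h1 : x < d * (x / d + 1) := Nat.lt_mul_div_succ x hd
      have h2 : (x : ℝ) < d * (((x / d : ℕ) : ℝ) + 1) := by exact_mod_cast h1
      rw [hX']; linarith
    have hfl' : (X' : ℝ) ≤ (x : ℝ) / d := Nat.cast_div_le
    have hX11 : (x : ℝ) ^ ((1 : ℝ) / 11) ≤ X' := by linarith
    have hX2 : 2 ≤ X' := by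
      have : (2 : ℝ) ≤ X' := by linarith
      exact_mod_cast this
    have hX'0 : (0 : ℝ) < X' := by linarith
    have hlogX : Real.log x / 11 ≤ Real.log X' := by
      have h1 : Real.log ((x : ℝ) ^ ((1 : ℝ) / 11)) ≤ Real.log X' :=
        Real.log_le_log (by positivity) hX11
      rw [Real.log_rpow hx0] at h1
      linarith
    have hcard : S.card ≤ ((Finset.Icc 1 X').filter (fun k => (d * k + 1).Prime)).card := by
      refine Finset.card_le_card_of_injOn (fun n => n / d) ?_ ?_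
      · intro n hn
        obtain ⟨h1, h2, -, h4⟩ := mem_NS (hSN hn)
        obtain ⟨k, rfl⟩ := hdS n hn
        have hk : d * k / d = k := Nat.mul_div_cancel_left k hd
        simp only [Finset.coe_filter, Finset.mem_Icc, Set.mem_setOf_eq, hk]
        refine ⟨⟨?_, ?_⟩, h2⟩
        · rcases Nat.eq_zero_or_pos k with h | h
          · subst h; omega
          · exact h
        · rw [hX', Nat.le_div_iff_mul_le hd]
          rw [mul_comm]; omega
      · intro n hn n' hn' he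
        obtain ⟨k, rfl⟩ := hdS n hn
        obtain ⟨k', rfl⟩ := hdS n' hn'
        simp only [Nat.mul_div_cancel_left _ hd] at he
        rw [he]
    have hB' := hB d X' hd hX2
    have hφ : (0 : ℝ) < d.totient := by exact_mod_cast Nat.totient_pos.2 hd
    calc (S.card : ℝ) ≤ (((Finset.Icc 1 X').filter (fun k => (d * k + 1).Prime)).card : ℝ) := by
          exact_mod_cast hcard
      _ ≤ CB * ((d : ℝ) / d.totient) * (X' / Real.log X') := hB'
      _ ≤ CB * ((d : ℝ) / d.totient) * (((x : ℝ) / d) / (Real.log x / 11)) := by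
          refine mul_le_mul_of_nonneg_left ?_ (by positivity)
          exact div_le_div₀ (by positivity) hfl' (by positivity) hlogX
      _ = (11 * CB) / Real.log x * x / d.totient := by field_simp
      _ ≤ max C2 (11 * CB) / Real.log x * x / d.totient := by
          gcongr
          exact le_max_right _ _
  · -- bil
    intro a M μ E S ha hM haM hμ hE hEc hSN hS
    have hMR : (0 : ℝ) < M := lt_of_lt_of_le hM1pos (by exact_mod_cast hM)
    have haR : (0 : ℝ) < a := by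
      rcases ha with rfl | ⟨h, -⟩
      · norm_num
      · exact_mod_cast h.pos
    have haM0 : (0 : ℝ) < a * M := mul_pos haR hMR
    have hY7 : (x : ℝ) ^ ((7 : ℝ) / 20) ≤ (x : ℝ) / (a * M) := by
      rw [le_div_iff₀ haM0]
      calc (x : ℝ) ^ ((7 : ℝ) / 20) * (a * M) ≤ (x : ℝ) ^ ((7 : ℝ) / 20) * (x : ℝ) ^ ((13 : ℝ) / 20) :=
            mul_le_mul_of_nonneg_left haM (by positivity)
        _ = x := by rw [hp]; norm_num
    have hμ0 : 0 < μ := lt_of_lt_of_le (Real.exp_pos _) hμ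
    obtain ⟨T, hTc, hT⟩ := exists_pairs S (fun m q => a * m * q)
      (fun m q => M / 2 < m ∧ m ≤ M ∧ q ∈ E) (fun n hn => by
        obtain ⟨m, q, h1, h2, h3, h4⟩ := hS n hn
        exact ⟨m, q, ⟨h1, h2, h3⟩, h4⟩)
    have hmain := hL x hxX1 a M ((x : ℝ) / (a * M)) μ E T
      (by
        rcases ha with h | ⟨h, h'⟩
        · exact Or.inl h
        · exact Or.inr ⟨h, hM1.trans (by exact_mod_cast h')⟩)
      (hM1.trans (by exact_mod_cast hM))
      (le_trans (Real.rpow_le_rpow_of_exponent_le hx1 (by norm_num)) hY7)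
      (fun q hq => by
        obtain ⟨h1, h2, h3⟩ := hE q hq
        refine ⟨h1, ?_, h3⟩
        have h4 : (x : ℝ) / (4 * (a * M)) = (x : ℝ) / (a * M) / 4 := by
          rw [div_div, mul_comm 4]
        rw [h4] at h2
        linarith)
      hμ hEc
      (fun t ht => by
        obtain ⟨⟨h1, h2, h3⟩, h4⟩ := hT t ht
        exact ⟨h3, h1, h2, (mem_NS (hSN h4)).2.1⟩)
    rw [hTc] at hmain
    refine hmain.trans ?_
    have hmax : 0 ≤ 1 + max 0 (-Real.log μ) := by positivity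
    calc C2 * μ * (1 + max 0 (-Real.log μ)) * ((x : ℝ) / (a * M)) * M / Real.log x ^ 2
        = C2 / Real.log x * μ * (1 + max 0 (-Real.log μ)) * x / (a * Real.log x) := by
          field_simp
      _ ≤ max C2 (11 * CB) / Real.log x * μ * (1 + max 0 (-Real.log μ)) * x / (a * Real.log x) := by
          gcongr
          exact le_max_left _ _
  · -- sml
    intro M μ Ms E S hM hMx hMs hμ hE hEc hSN hS
    have hMR : (0 : ℝ) < M := by exact_mod_cast hM
    have hM1R : (1 : ℝ) ≤ M := by exact_mod_cast hM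
    have hY : (x : ℝ) ^ ((2 : ℝ) / 5) ≤ (x : ℝ) / M := by
      rw [le_div_iff₀ hMR]
      calc (x : ℝ) ^ ((2 : ℝ) / 5) * M ≤ (x : ℝ) ^ ((2 : ℝ) / 5) * (x : ℝ) ^ ((3 : ℝ) / 5) :=
            mul_le_mul_of_nonneg_left hMx (by positivity)
        _ = x := by rw [hp]; norm_num
    have hμ0 : 0 < μ := lt_of_lt_of_le (Real.exp_pos _) hμ
    obtain ⟨T, hTc, hT⟩ := exists_pairs S (fun m q => m * q)
      (fun m q => m ∈ Ms ∧ q ∈ E) (fun n hn => by
        obtain ⟨m, q, h1, h2, h3⟩ := hS n hn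
        exact ⟨m, q, ⟨h1, h2⟩, h3⟩)
    have hmain := hCL x hxX2 [] 1 Ms ((x : ℝ) / M) μ E T
      (by simpa using pow_nonneg hll A)
      (by simp) le_rfl
      (fun m hm => by have := (hMs m hm).1; omega)
      (le_trans (Real.rpow_le_rpow_of_exponent_le hx1 (by norm_num)) hY)
      (div_le_self hx0.le hM1R)
      (fun q hq => by
        obtain ⟨h1, h2, h3⟩ := hE q hq
        refine ⟨h1, ?_, h3⟩
        have h4 : (x : ℝ) / (4 * M) = (x : ℝ) / M / 4 := by
          rw [div_div, mul_comm 4]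
        rw [h4] at h2
        linarith)
      hμ hEc
      (fun t ht => by
        obtain ⟨⟨h1, h2⟩, h3⟩ := hT t ht
        have h4 := mem_NS (hSN h3)
        refine ⟨h2, h1, ?_, ?_⟩
        · rw [one_mul]; exact h4.2.1
        · rw [one_mul]; exact h4.2.2.2)
    rw [hTc] at hmain
    refine hmain.trans ?_
    have hC2' : 1 ≤ max C2 (11 * CB) := le_trans hC2 (le_max_left _ _)
    have e1 : (x : ℝ) / M / Real.log x = (x : ℝ) / (M * Real.log x) := by rw [div_div]
    rw [e1]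
    refine mul_le_mul_of_nonneg_left ?_ (by positivity)
    refine add_le_add le_rfl ?_
    simp only [List.length_nil, zero_add, pow_one]
    rw [mul_assoc]
    refine mul_le_mul_of_nonneg_left ?_ (by positivity)
    rw [div_mul_eq_mul_div, div_le_div_iff_of_pos_right hlog0]
    exact le_mul_of_one_le_left (pow_nonneg hll C) hC2'

end Pool.Agent.Helper51.TOT
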