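import Pool.Agent.Helper44.TOT.Defs

/-!
# TOT-S14: ClassCount, equidistribution of an interval in residue classes
-/

set_option autoImplicit false

namespace Pool.Agent.Helper51.TOT

open Pool.Agent.Helper44.TOT

/-- a periodic predicate on an interval of length `n` -/
theorem interval_count (P : ℕ) (p : ℕ → Prop) [DecidablePred p] (hp : Function.Periodic p P) (k j : ℕ) :
    ((Finset.Ico k (k + P * j)).filter p).card = j * P.count p := by
  induction j with
  | zero => simp
  | succ j ih =>
      have h1 : Finset.Ico k (k + P * (j + 1)) =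
          Finset.Ico k (k + P * j) ∪ Finset.Ico (k + P * j) (k + P * j + P) := by
        rw [show k + P * (j + 1) = k + P * j + P by ring]
        exact (Finset.Ico_union_Ico_eq_Ico (Nat.le_add_right _ _) (Nat.le_add_right _ _)).symm
      have h2 : Disjoint (Finset.Ico k (k + P * j)) (Finset.Ico (k + P * j) (k + P * j + P)) :=
        Finset.Ico_disjoint_Ico_consecutive _ _ _
      rw [h1, Finset.filter_union, Finset.card_union_of_disjoint (Finset.disjoint_filter_filter h2), ih,
        Nat.filter_Ico_card_eq_of_periodic _ _ _ hp]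
      ring

theorem count_le_totient {c P : ℕ} (hP : 1 ≤ P) (hc : Nat.Coprime c P) :
    P.count (fun m => Nat.Coprime (c * m + 1) P) ≤ P.totient := by
  rw [Nat.count_eq_card_filter_range, Nat.totient]
  refine Finset.card_le_card_of_injOn (fun m => (c * m + 1) % P) ?_ ?_
  · intro m hm
    simp only [Finset.coe_filter, Finset.mem_range, Set.mem_ofPred_eq] at hm ⊢
    refine ⟨Nat.mod_lt _ hP, ?_⟩
    have h1 : P.gcd (c * m + 1) = 1 := Nat.coprime_comm.1 hm.2
    have h2 : ((c * m + 1) % P).gcd P = 1 := by rw [← Nat.gcd_rec]; exact h1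
    exact Nat.coprime_comm.1 h2
  · intro m hm m' hm' he
    simp only [Finset.coe_filter, Finset.mem_range, Set.mem_ofPred_eq] at hm hm'
    have h1 : c * m + 1 ≡ c * m' + 1 [MOD P] := he
    have h2 : c * m ≡ c * m' [MOD P] := Nat.ModEq.add_right_cancel' 1 h1
    have h3 : m ≡ m' [MOD P] := Nat.ModEq.cancel_left_of_coprime (by rw [Nat.gcd_comm]; exact hc) h2
    exact Nat.ModEq.eq_of_lt_of_lt h3 hm.1 hm'.1

theorem classCount : ClassCount := by
  intro a b R M ha ha1 hb hM
  set P := primorial R with hP
  have hP1 : 1 ≤ P := primorial_pos R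
  have hcop : Nat.Coprime (a * b) P := by
    refine Nat.Coprime.mul_left ?_ hb
    refine Nat.coprime_of_dvd (fun l hl h1 h2 => ?_)
    have h3 := ha l hl h1
    have h4 := (Nat.Prime.dvd_primorial_iff hl).1 h2
    omega
  have hper : Function.Periodic (fun m => Nat.Coprime (a * m * b + 1) P) P := by
    intro m
    have h1 : a * (m + P) * b + 1 = a * m * b + 1 + (a * b) * P := by ring
    simp only [h1, eq_iff_iff]
    rw [Nat.coprime_add_mul_right_left]
  have hcount : P.count (fun m => Nat.Coprime (a * m * b + 1) P) ≤ P.totient := by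
    have h1 : (fun m => Nat.Coprime (a * m * b + 1) P) = (fun m => Nat.Coprime (a * b * m + 1) P) := by
      funext m
      rw [show a * m * b = a * b * m by ring]
    simp only [h1]
    exact count_le_totient hP1 hcop
  set n := M - M / 2 with hn
  have hsub : (Finset.Ioc (M / 2) M) ⊆ Finset.Ico (M / 2 + 1) (M / 2 + 1 + P * (n / P + 1)) := by
    intro m hm
    rw [Finset.mem_Ioc] at hm
    rw [Finset.mem_Ico]
    have h1 : n < P * (n / P + 1) := Nat.lt_mul_div_succ n hP1
    omega
  have hcard : ((Finset.Ioc (M / 2) M).filter (fun m => Nat.Coprime (a * m * b + 1) P)).card ≤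
      (n / P + 1) * P.totient := by
    refine (Finset.card_le_card (Finset.filter_subset_filter _ hsub)).trans ?_
    rw [interval_count P _ hper]
    exact Nat.mul_le_mul_left _ hcount
  have hPR : (0 : ℝ) < P := by exact_mod_cast hP1
  have hnP : ((n / P : ℕ) : ℝ) + 1 ≤ (M : ℝ) / P := by
    have h1 : ((n / P : ℕ) : ℝ) ≤ (n : ℝ) / P := Nat.cast_div_le
    have h2 : (n : ℝ) / P + 1 ≤ (M : ℝ) / P := by
      rw [div_add_one hPR.ne', div_le_div_iff_of_pos_right hPR]
      have h3 : n + P ≤ M := by omega
      exact_mod_cast h3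
    linarith
  calc ((((Finset.Ioc (M / 2) M).filter (fun m => Nat.Coprime (a * m * b + 1) P)).card : ℕ) : ℝ)
      ≤ (((n / P + 1) * P.totient : ℕ) : ℝ) := by exact_mod_cast hcard
    _ = (((n / P : ℕ) : ℝ) + 1) * P.totient := by push_cast; ring
    _ ≤ (M : ℝ) / P * P.totient := mul_le_mul_of_nonneg_right hnP (Nat.cast_nonneg _)
    _ = (P.totient : ℝ) / P * M := by ring

end Pool.Agent.Helper51.TOT
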